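import Pool.Agent.Y349.KS.Asm

/-!
The question of Kral and Sgall is answered in the negative, with an arbitrary gap: for every `g`
and every large `k`, no bound on the size of the union of the lists makes
`(k,0,p)`-choosability imply `(k+g)`-choosability.
-/

set_option autoImplicit false

namespace Pool.Agent.Results.MP_583a9a_co.NoPaletteBound

open Finset

/-- `G` is `(k,0,p)`-choosable: there is a proper colouring from every list assignment whose lists
have at least `k` colours and whose union has at most `p` colours. -/
def PaletteChoosable {V : Type} [Fintype V] (G : SimpleGraph V) (k p : ℕ) : Prop :=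
  ∀ L : V → Finset ℕ, (∀ v, k ≤ (L v).card) → (univ.biUnion L).card ≤ p →
    ∃ φ : V → ℕ, (∀ v, φ v ∈ L v) ∧ ∀ u v, G.Adj u v → φ u ≠ φ v

/-- `G` is `k`-choosable: there is a proper colouring from every list assignment whose lists have
at least `k` colours. -/
def Choosable {V : Type} (G : SimpleGraph V) (k : ℕ) : Prop :=
  ∀ L : V → Finset ℕ, (∀ v, k ≤ (L v).card) →
    ∃ φ : V → ℕ, (∀ v, φ v ∈ L v) ∧ ∀ u v, G.Adj u v → φ u ≠ φ v

/-- For every `g` there is `k₀` such that for every `k ≥ k₀` and every `p` some finite graph is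
`(k,0,p)`-choosable and not `(k+g)`-choosable. -/
theorem result (g : ℕ) : ∃ k₀ : ℕ, ∀ k, k₀ ≤ k → ∀ p : ℕ,
    ∃ (V : Type) (_ : Fintype V) (G : SimpleGraph V),
      PaletteChoosable G k p ∧ ¬ Choosable G (k + g) :=
  Pool.Agent.Y349.KS.main g

end Pool.Agent.Results.MP_583a9a_co.NoPaletteBound
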